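import Pool.Agent.Q215.TD.Stm

/-!
# TD-PL: a family of homeomorphisms of the line

Lemma job TD-PL of helper215 (project TD), proved by helper166.
-/

set_option autoImplicit false

namespace Pool.Agent.Q166.TD

open Pool.Agent.Q215.TD

theorem pl_left {α r t : ℝ} (hr : 0 < r) (h1 : 0 < α - r) (h2 : 0 < 1 - α - r) (h0 : 0 ≤ t)
    (h : t ≤ α - r) : pl α r t = t / (α - r) := by
  have e1 : t / (α - r) ≤ 1 := by rw [div_le_one h1]; exact h
  have e2 : 1 ≤ (1 - t) / (1 - α - r) := by rw [one_le_div h2]; linarith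
  have e0 : 0 ≤ t / (α - r) := div_nonneg h0 h1.le
  unfold pl
  rw [min_eq_left (le_trans e1 e2), min_eq_right e1, max_eq_right e0]

theorem pl_mid {α r t : ℝ} (h1 : 0 < α - r) (h2 : 0 < 1 - α - r)
    (h : α - r ≤ t) (h' : t ≤ α + r) : pl α r t = 1 := by
  have e1 : 1 ≤ t / (α - r) := by rw [one_le_div h1]; exact h
  have e2 : 1 ≤ (1 - t) / (1 - α - r) := by rw [one_le_div h2]; linarith
  unfold pl
  rw [min_eq_left (le_min e1 e2), max_eq_right zero_le_one]

theorem pl_right {α r t : ℝ} (hr : 0 < r) (h1 : 0 < α - r) (h2 : 0 < 1 - α - r) (h0 : t ≤ 1)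
    (h : α + r ≤ t) : pl α r t = (1 - t) / (1 - α - r) := by
  have e1 : 1 ≤ t / (α - r) := by rw [one_le_div h1]; linarith
  have e2 : (1 - t) / (1 - α - r) ≤ 1 := by rw [div_le_one h2]; linarith
  have e0 : 0 ≤ (1 - t) / (1 - α - r) := div_nonneg (by linarith) h2.le
  unfold pl
  rw [min_eq_right (le_trans e2 e1), min_eq_right e2, max_eq_right e0]

theorem pl_out {α r t : ℝ} (h1 : 0 < α - r) (h2 : 0 < 1 - α - r) (h : t ≤ 0 ∨ 1 ≤ t) :
    pl α r t = 0 := by
  unfold pl
  apply max_eq_left
  rcases h with h | h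
  · exact le_trans (min_le_right _ _) (le_trans (min_le_left _ _)
      (div_nonpos_of_nonpos_of_nonneg h h1.le))
  · exact le_trans (min_le_right _ _) (le_trans (min_le_right _ _)
      (div_nonpos_of_nonpos_of_nonneg (by linarith) h2.le))

theorem t_PL : S_PL := by
  intro r hr hr'
  have pos : ∀ α : ℝ, 1 / 4 ≤ α → α ≤ 3 / 4 → 0 < α - r ∧ 0 < 1 - α - r := by
    intro α ha hb
    constructor <;> linarith
  refine ⟨?_, ?_, ?_, ?_⟩
  · unfold pl
    refine continuous_const.max (continuous_const.min (Continuous.min ?_ ?_))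
    · refine Continuous.div continuous_snd ?_ ?_
      · exact (continuous_subtype_val.comp continuous_fst).sub continuous_const
      · intro p
        exact (pos p.1 p.1.2.1 p.1.2.2).1.ne'
    · refine Continuous.div (continuous_const.sub continuous_snd) ?_ ?_
      · exact (continuous_const.sub (continuous_subtype_val.comp continuous_fst)).sub
          continuous_const
      · intro p
        exact (pos p.1 p.1.2.1 p.1.2.2).2.ne'
  · intro α t ha hb h
    obtain ⟨h1, h2⟩ := pos α ha hb
    have h3 := abs_le.1 h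
    exact pl_mid h1 h2 (by linarith [h3.1]) (by linarith [h3.2])
  · intro α t ha hb h
    obtain ⟨h1, h2⟩ := pos α ha hb
    exact pl_out h1 h2 h
  · intro α γ t ha hb hc hd
    obtain ⟨h1, h2⟩ := pos α ha hb
    obtain ⟨h3, h4⟩ := pos γ hc hd
    have key : pl γ r (t + (γ - α) * pl α r t) = pl α r t := by
      by_cases t0 : t ≤ 0
      · rw [pl_out h1 h2 (Or.inl t0), mul_zero, add_zero, pl_out h3 h4 (Or.inl t0)]
      by_cases t1 : 1 ≤ t
      · rw [pl_out h1 h2 (Or.inr t1), mul_zero, add_zero, pl_out h3 h4 (Or.inr t1)]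
      rw [not_le] at t0 t1
      by_cases c1 : t ≤ α - r
      · rw [pl_left hr h1 h2 t0.le c1]
        have e : t + (γ - α) * (t / (α - r)) = (t / (α - r)) * (γ - r) := by
          have : t = (t / (α - r)) * (α - r) := by rw [div_mul_cancel₀ _ h1.ne']
          calc t + (γ - α) * (t / (α - r))
              = (t / (α - r)) * (α - r) + (γ - α) * (t / (α - r)) := by rw [← this]
            _ = (t / (α - r)) * (γ - r) := by ring
        have e0 : 0 ≤ t / (α - r) := div_nonneg t0.le h1.le
        have e1 : t / (α - r) ≤ 1 := by rw [div_le_one h1]; exact c1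
        rw [e, pl_left hr h3 h4 (mul_nonneg e0 h3.le) (by nlinarith), mul_div_cancel_right₀ _ h3.ne']
      rw [not_le] at c1
      by_cases c2 : t ≤ α + r
      · rw [pl_mid h1 h2 c1.le c2]
        exact pl_mid h3 h4 (by linarith) (by linarith)
      rw [not_le] at c2
      rw [pl_right hr h1 h2 t1.le c2.le]
      have e0 : 0 ≤ (1 - t) / (1 - α - r) := div_nonneg (by linarith) h2.le
      have e1 : (1 - t) / (1 - α - r) ≤ 1 := by rw [div_le_one h2]; linarith
      have e : t + (γ - α) * ((1 - t) / (1 - α - r))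
          = 1 - ((1 - t) / (1 - α - r)) * (1 - γ - r) := by
        have : 1 - t = ((1 - t) / (1 - α - r)) * (1 - α - r) := by rw [div_mul_cancel₀ _ h2.ne']
        calc t + (γ - α) * ((1 - t) / (1 - α - r))
            = 1 - (1 - t) + (γ - α) * ((1 - t) / (1 - α - r)) := by ring
          _ = 1 - ((1 - t) / (1 - α - r)) * (1 - α - r)
              + (γ - α) * ((1 - t) / (1 - α - r)) := by rw [← this]
          _ = 1 - ((1 - t) / (1 - α - r)) * (1 - γ - r) := by ring
      rw [e, pl_right hr h3 h4 (by nlinarith) (by nlinarith), sub_sub_cancel,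
        mul_div_cancel_right₀ _ h4.ne']
    rw [key]
    ring

end Pool.Agent.Q166.TD
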